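import Pool.Agent.Helper44.Ric.HNTH

set_option autoImplicit false

noncomputable section

namespace RicP

theorem hnsm_bd (a b : ℕ) (ha : a ≤ 4) (hb : b ≤ 4) (m w y : ℝ) (hm : 1 ≤ m)
    (hw : 39 / 2 ≤ w) (hy : m ^ 2 * w ≤ y) :
    Real.sqrt (w / 7) ^ a * (m ^ a * ((y + 3) ^ b * Real.exp (-y))) ≤
      2 ^ a * 23 ^ b * Real.exp (-(39 / 2)) * Real.exp (-(20 * (m - 1))) := by
  have hm2 : 1 ≤ m ^ 2 := by nlinarith
  have hwy : w ≤ y := by nlinarith
  have hy39 : 39 * (m - 1) ≤ y - 39 / 2 := by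
    have h1 : (39 / 2) * m ^ 2 ≤ m ^ 2 * w := by nlinarith
    nlinarith
  have hs : Real.sqrt (w / 7) ≤ 2 * Real.exp ((w - 39 / 2) / 28) := by
    have h1 : Real.sqrt (w / 7) ≤ (1 + w / 7) / 2 := by
      rw [Real.sqrt_le_left (by positivity)]
      nlinarith [sq_nonneg (1 - w / 7)]
    have h2 := Real.add_one_le_exp ((w - 39 / 2) / 28)
    linarith
  have h1 : y + 3 ≤ 23 * Real.exp ((y - 39 / 2) / 23) := by
    have := Real.add_one_le_exp ((y - 39 / 2) / 23)
    linarith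
  have h2 : m ≤ Real.exp (m - 1) := by
    have := Real.add_one_le_exp (m - 1)
    linarith
  have h0 : Real.sqrt (w / 7) ^ a ≤ 2 ^ a * Real.exp (4 * ((w - 39 / 2) / 28)) := by
    calc Real.sqrt (w / 7) ^ a ≤ (2 * Real.exp ((w - 39 / 2) / 28)) ^ a :=
          pow_le_pow_left₀ (Real.sqrt_nonneg _) hs a
      _ = 2 ^ a * Real.exp (a * ((w - 39 / 2) / 28)) := by rw [mul_pow, ← Real.exp_nat_mul]
      _ ≤ 2 ^ a * Real.exp (4 * ((w - 39 / 2) / 28)) := by
          have ha' : (a : ℝ) ≤ 4 := by exact_mod_cast ha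
          have : (a : ℝ) * ((w - 39 / 2) / 28) ≤ 4 * ((w - 39 / 2) / 28) :=
            mul_le_mul_of_nonneg_right ha' (by linarith)
          gcongr
  have h3 : (y + 3) ^ b ≤ 23 ^ b * Real.exp (4 * ((y - 39 / 2) / 23)) := by
    calc (y + 3) ^ b ≤ (23 * Real.exp ((y - 39 / 2) / 23)) ^ b :=
          pow_le_pow_left₀ (by linarith) h1 b
      _ = 23 ^ b * Real.exp (b * ((y - 39 / 2) / 23)) := by rw [mul_pow, ← Real.exp_nat_mul]
      _ ≤ 23 ^ b * Real.exp (4 * ((y - 39 / 2) / 23)) := by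
          have hb' : (b : ℝ) ≤ 4 := by exact_mod_cast hb
          have : (b : ℝ) * ((y - 39 / 2) / 23) ≤ 4 * ((y - 39 / 2) / 23) :=
            mul_le_mul_of_nonneg_right hb' (by linarith)
          gcongr
  have h4 : m ^ a ≤ Real.exp (4 * (m - 1)) := by
    calc m ^ a ≤ (Real.exp (m - 1)) ^ a := pow_le_pow_left₀ (by linarith) h2 a
      _ = Real.exp (a * (m - 1)) := by rw [← Real.exp_nat_mul]
      _ ≤ Real.exp (4 * (m - 1)) := by
          have ha' : (a : ℝ) ≤ 4 := by exact_mod_cast ha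
          have : (a : ℝ) * (m - 1) ≤ 4 * (m - 1) :=
            mul_le_mul_of_nonneg_right ha' (by linarith)
          gcongr
  have hy3 : 0 ≤ y + 3 := by linarith
  have hm0 : 0 ≤ m := by linarith
  calc Real.sqrt (w / 7) ^ a * (m ^ a * ((y + 3) ^ b * Real.exp (-y)))
      ≤ (2 ^ a * Real.exp (4 * ((w - 39 / 2) / 28))) * (Real.exp (4 * (m - 1)) *
        ((23 ^ b * Real.exp (4 * ((y - 39 / 2) / 23))) * Real.exp (-y))) := by
          apply mul_le_mul h0 _ (by positivity) (by positivity)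
          apply mul_le_mul h4 _ (by positivity) (by positivity)
          exact mul_le_mul_of_nonneg_right h3 (Real.exp_nonneg _)
    _ = 2 ^ a * 23 ^ b * (Real.exp (4 * ((w - 39 / 2) / 28)) * Real.exp (4 * (m - 1)) *
          Real.exp (4 * ((y - 39 / 2) / 23)) * Real.exp (-y)) := by ring
    _ = 2 ^ a * 23 ^ b * Real.exp (4 * ((w - 39 / 2) / 28) + 4 * (m - 1) +
          4 * ((y - 39 / 2) / 23) + -y) := by
          rw [Real.exp_add, Real.exp_add, Real.exp_add]
    _ ≤ 2 ^ a * 23 ^ b * Real.exp (-(39 / 2) + -(20 * (m - 1))) := by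
          have : 4 * ((w - 39 / 2) / 28) + 4 * (m - 1) + 4 * ((y - 39 / 2) / 23) + -y ≤
              -(39 / 2) + -(20 * (m - 1)) := by
            linarith
          gcongr
    _ = 2 ^ a * 23 ^ b * Real.exp (-(39 / 2)) * Real.exp (-(20 * (m - 1))) := by
          rw [Real.exp_add]; ring

theorem hnsm_num : 2 * (Real.exp (-(39 / 2)) * (1 - Real.exp (-20))⁻¹) ≤ 1 / 10 ^ 8 := by
  have h1 : (2.718 : ℝ) ^ 19 * (3 / 2) ≤ Real.exp (39 / 2) := by
    have h := Real.exp_one_gt_d9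
    have e : Real.exp (39 / 2) = Real.exp 1 ^ 19 * Real.exp (1 / 2) := by
      rw [← Real.exp_nat_mul, ← Real.exp_add]; norm_num
    rw [e]
    have h3 := Real.add_one_le_exp (1 / 2 : ℝ)
    exact mul_le_mul (pow_le_pow_left₀ (by norm_num) (by linarith) 19) (by linarith)
      (by norm_num) (by positivity)
  have h2 : Real.exp (-20) ≤ 1 / 1000 := by
    have h := Real.exp_one_gt_d9
    have e : Real.exp 20 = Real.exp 1 ^ 20 := by
      rw [← Real.exp_nat_mul]; norm_num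
    have h3 : (2 : ℝ) ^ 20 ≤ Real.exp 20 := by
      rw [e]
      exact pow_le_pow_left₀ (by norm_num) (by linarith) 20
    rw [Real.exp_neg]
    rw [inv_le_comm₀ (Real.exp_pos _) (by norm_num)]
    refine le_trans ?_ h3
    norm_num
  have h3 : Real.exp (-(39 / 2)) ≤ ((2.718 : ℝ) ^ 19 * (3 / 2))⁻¹ := by
    rw [Real.exp_neg]
    exact inv_anti₀ (by positivity) h1
  have h4 : (1 - Real.exp (-20))⁻¹ ≤ 1000 / 999 := by
    have h5 : (999 / 1000 : ℝ) ≤ 1 - Real.exp (-20) := by linarith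
    have := inv_anti₀ (by norm_num) h5
    refine this.trans ?_
    norm_num
  have h5 : (0 : ℝ) ≤ (1 - Real.exp (-20))⁻¹ := inv_nonneg.2 (by linarith)
  calc 2 * (Real.exp (-(39 / 2)) * (1 - Real.exp (-20))⁻¹)
      ≤ 2 * (((2.718 : ℝ) ^ 19 * (3 / 2))⁻¹ * (1000 / 999)) := by
        have := mul_le_mul h3 h4 h5 (by positivity)
        linarith
    _ ≤ 1 / 10 ^ 8 := by norm_num

theorem st_HNSM : ST_HNSM := by
  intro k κ hk L θ hL hL2 a b hab
  have hkκ : (k : ℝ) * κ = 4 := by exact_mod_cast hk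
  have hk0 : (k : ℝ) ≠ 0 := by
    rintro h
    rw [h, zero_mul] at hkκ
    norm_num at hkκ
  have hκ1 : (1 : ℝ) ≤ κ := by
    have : 1 ≤ κ := by
      rcases Nat.eq_zero_or_pos κ with h | h
      · rw [h, mul_zero] at hk; omega
      · exact h
    exact_mod_cast this
  set w : ℝ := Real.pi ^ 2 / (2 * L) with hw
  have hw1 : 39 / 2 ≤ w := by
    rw [hw, le_div_iff₀ (by positivity)]
    have := Real.pi_gt_d4
    nlinarith
  have hsq : Real.sqrt (Real.pi ^ 2 / (14 * L)) = Real.sqrt (w / 7) := by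
    congr 1
    rw [hw]
    field_simp
    ring
  have hyy : ∀ m : ℝ, 2 * Real.pi ^ 2 * m ^ 2 / (k * L) = κ * m ^ 2 * w := by
    intro m
    rw [hw]
    have : (κ : ℝ) = 4 / k := by field_simp; linarith
    rw [this]
    field_simp
    ring
  have ha4 : a ≤ 4 := by omega
  have hb4 : b ≤ 4 := by omega
  -- the terms
  set f : ℤ → ℝ := fun m => (m : ℝ) ^ a * Real.cos (m * θ + a * (Real.pi / 2)) *
    PL a b (2 * Real.pi ^ 2 * (m : ℝ) ^ 2 / (k * L)) *
    Real.exp (-(2 * Real.pi ^ 2 * (m : ℝ) ^ 2 / (k * L))) with hf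
  have heven : ∀ m : ℤ, f (-m) = f m := by
    intro m
    simp only [hf, Int.cast_neg, neg_sq]
    congr 2
    rw [hnth_cos a ha4, hnth_cos a ha4]
    interval_cases a <;> norm_num [hs]
    ring
  have hS0 : 0 ≤ Real.sqrt (w / 7) ^ a := pow_nonneg (Real.sqrt_nonneg _) a
  set S : ℝ := Real.sqrt (w / 7) ^ a with hS
  set q : ℕ → ℝ := fun n => S * f ((n + 1 : ℕ) : ℤ) with hq
  set C : ℝ := 2 ^ a * 23 ^ b * Real.exp (-(39 / 2)) with hCd
  have hqb : ∀ n : ℕ, |q n| ≤ C * Real.exp (-20) ^ n := by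
    intro n
    have hm1 : (1 : ℝ) ≤ ((n + 1 : ℕ) : ℝ) := by
      push_cast; linarith [(Nat.cast_nonneg n : (0:ℝ) ≤ n)]
    have hcast : (((n + 1 : ℕ) : ℤ) : ℝ) = ((n + 1 : ℕ) : ℝ) := by push_cast; ring
    simp only [hq, hf]
    rw [hyy, hcast]
    set m : ℝ := ((n + 1 : ℕ) : ℝ) with hm
    have hy : m ^ 2 * w ≤ κ * m ^ 2 * w := by
      have h1 : m ^ 2 ≤ κ * m ^ 2 := by nlinarith [sq_nonneg m]
      have h2 : 0 ≤ w := by linarith
      nlinarith
    have hy0 : 0 ≤ κ * m ^ 2 * w := by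
      refine le_trans ?_ hy
      have : 0 ≤ w := by linarith
      positivity
    have hPL := hnth_PL a b hab _ hy0
    have hbd := hnsm_bd a b ha4 hb4 m w _ hm1 hw1 hy
    have hm0 : 0 ≤ m := by linarith
    have hcos := Real.abs_cos_le_one (m * θ + a * (Real.pi / 2))
    calc |S * (m ^ a * Real.cos (m * θ + a * (Real.pi / 2)) * PL a b (κ * m ^ 2 * w) *
          Real.exp (-(κ * m ^ 2 * w)))|
        = S * (m ^ a * |Real.cos (m * θ + a * (Real.pi / 2))| * |PL a b (κ * m ^ 2 * w)| *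
          Real.exp (-(κ * m ^ 2 * w))) := by
          rw [abs_mul, abs_mul, abs_mul, abs_mul, abs_of_nonneg hS0,
            abs_of_nonneg (pow_nonneg hm0 a), Real.abs_exp]
      _ ≤ S * (m ^ a * 1 * (κ * m ^ 2 * w + 3) ^ b * Real.exp (-(κ * m ^ 2 * w))) := by
          gcongr
      _ = S * (m ^ a * ((κ * m ^ 2 * w + 3) ^ b * Real.exp (-(κ * m ^ 2 * w)))) := by ring
      _ ≤ C * Real.exp (-(20 * (m - 1))) := hbd
      _ = C * Real.exp (-20) ^ n := by
          rw [← Real.exp_nat_mul]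
          congr 2
          rw [hm]
          push_cast
          ring
  have hr1 : Real.exp (-20) < 1 := by
    rw [Real.exp_lt_one_iff]
    norm_num
  have hgs : HasSum (fun n : ℕ => C * Real.exp (-20) ^ n) (C * (1 - Real.exp (-20))⁻¹) :=
    (hasSum_geometric_of_lt_one (Real.exp_nonneg _) hr1).mul_left C
  have hqs : Summable q := Summable.of_norm_bounded hgs.summable hqb
  have hSpos : 0 < S := by
    rw [hS]
    have : 0 < w := by linarith
    positivity
  have hg1 : Summable (fun n : ℕ => f ((n + 1 : ℕ) : ℤ)) := by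
    have := hqs.mul_left S⁻¹
    refine this.congr fun n => ?_
    simp only [hq]
    rw [← mul_assoc, inv_mul_cancel₀ hSpos.ne', one_mul]
  have hg : Summable (fun n : ℕ => f (n : ℤ)) := (summable_nat_add_iff 1).1 hg1
  have hneg : ∀ n : ℕ, f (-((n : ℤ) + 1)) = f ((n + 1 : ℕ) : ℤ) := by
    intro n
    rw [heven]
    push_cast
    rfl
  have hsum : ∑' m : ℤ, f m = f 0 + 2 * ∑' n : ℕ, f ((n + 1 : ℕ) : ℤ) := by
    rw [tsum_of_nat_of_neg_add_one hg (by simpa only [hneg] using hg1)]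
    simp only [hneg]
    have e1 := hg.sum_add_tsum_nat_add 1
    rw [← e1]
    simp only [Finset.sum_range_succ, Finset.sum_range_zero]
    push_cast
    ring
  have h0 : f 0 = if a = 0 ∧ b = 0 then 1 else 0 := by
    simp only [hf]
    interval_cases a
    · interval_cases b <;> norm_num [PL]
    all_goals norm_num
  have h0S : S * f 0 = if a = 0 ∧ b = 0 then 1 else 0 := by
    rw [h0]
    by_cases h : a = 0 ∧ b = 0
    · rw [if_pos h, hS, h.1, pow_zero]; norm_num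
    · rw [if_neg h]; ring
  have hth : uH k L θ a b = S * ∑' m : ℤ, f m := by
    unfold uH thH
    rw [hsq]
  rw [hth, hsum, mul_add, h0S, add_sub_cancel_left]
  have e5 : S * (2 * ∑' n : ℕ, f ((n + 1 : ℕ) : ℤ)) = 2 * ∑' n, q n := by
    simp only [hq]
    rw [tsum_mul_left]
    ring
  rw [e5]
  have h1 : ‖∑' n, q n‖ ≤ C * (1 - Real.exp (-20))⁻¹ :=
    tsum_of_norm_bounded hgs (fun n => by rw [Real.norm_eq_abs]; exact hqb n)
  rw [Real.norm_eq_abs] at h1
  rw [abs_mul, abs_of_pos (by norm_num : (0 : ℝ) < 2)]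
  have h2 := hnsm_num
  calc 2 * |∑' n, q n| ≤ 2 * (C * (1 - Real.exp (-20))⁻¹) := by linarith
    _ = (2 ^ a * 23 ^ b) * (2 * (Real.exp (-(39 / 2)) * (1 - Real.exp (-20))⁻¹)) := by
        rw [hCd]; ring
    _ ≤ (2 ^ a * 23 ^ b) * (1 / 10 ^ 8) := by gcongr
    _ = 2 ^ a * 23 ^ b / 10 ^ 8 := by ring

end RicP
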