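import Pool.Agent.Helper88.Ric.HNStmts

set_option autoImplicit false

noncomputable section

namespace RicP

theorem hnth_PL (a b : ℕ) (h : a + b ≤ 4) (y : ℝ) (hy : 0 ≤ y) : |PL a b y| ≤ (y + 3) ^ b := by
  have hb : b ≤ 4 := by omega
  have h2 := pow_nonneg hy 2
  have h3 := pow_nonneg hy 3
  have h4 := pow_nonneg hy 4
  interval_cases b
  · simp [PL]
  · have ha : a ≤ 3 := by omega
    interval_cases a <;> simp only [PL] <;> rw [abs_le] <;> push_cast <;> constructor <;> nlinarith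
  · have ha : a ≤ 2 := by omega
    interval_cases a <;> simp only [PL] <;> rw [abs_le] <;> push_cast <;> constructor <;> nlinarith
  · have ha : a ≤ 1 := by omega
    interval_cases a <;> simp only [PL] <;> rw [abs_le] <;> push_cast <;> constructor <;> nlinarith
  · have ha : a = 0 := by omega
    subst ha
    simp only [PL]
    rw [abs_le]
    push_cast
    constructor <;> nlinarith

theorem hnth_cos (a : ℕ) (ha : a ≤ 4) (x : ℝ) :
    Real.cos (x + a * (Real.pi / 2)) =
      hs a * (if a % 2 = 0 then Real.cos x else Real.sin x) := by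
  interval_cases a
  · simp [hs]
  · have e : x + ((1 : ℕ) : ℝ) * (Real.pi / 2) = x + Real.pi / 2 := by push_cast; ring
    rw [e, Real.cos_add_pi_div_two]
    norm_num [hs]
  · have e : x + ((2 : ℕ) : ℝ) * (Real.pi / 2) = x + Real.pi := by push_cast; ring
    rw [e, Real.cos_add_pi]
    norm_num [hs]
  · have e : x + ((3 : ℕ) : ℝ) * (Real.pi / 2) = (x + Real.pi) + Real.pi / 2 := by
      push_cast; ring
    rw [e, Real.cos_add_pi_div_two, Real.sin_add_pi]
    norm_num [hs]
  · have e : x + ((4 : ℕ) : ℝ) * (Real.pi / 2) = x + 2 * Real.pi := by push_cast; ring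
    rw [e, Real.cos_add_two_pi]
    norm_num [hs]

theorem hnth_u (θ : ℝ) (m : ℕ) : ∃ u : ℝ, Real.sin (m * θ) = Real.sin θ * u ∧ |u| ≤ m := by
  induction m with
  | zero => exact ⟨0, by simp, by simp⟩
  | succ m ih =>
    obtain ⟨u, h1, h2⟩ := ih
    refine ⟨u * Real.cos θ + Real.cos (m * θ), ?_, ?_⟩
    · push_cast
      rw [add_mul, one_mul, Real.sin_add, h1]
      ring
    · push_cast
      have h3 := Real.abs_cos_le_one θ
      have h4 := Real.abs_cos_le_one (m * θ)
      refine (abs_add_le _ _).trans ?_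
      rw [abs_mul]
      nlinarith [abs_nonneg u, abs_nonneg (Real.cos θ)]

theorem hnth_v (a : ℕ) (θ : ℝ) (m : ℕ) : ∃ v : ℝ,
    (if a % 2 = 0 then Real.cos (m * θ) else Real.sin (m * θ)) = Real.sin θ ^ (a % 2) * v ∧
      |v| ≤ (m : ℝ) ^ (a % 2) := by
  rcases Nat.mod_two_eq_zero_or_one a with h | h
  · refine ⟨Real.cos (m * θ), ?_, ?_⟩
    · rw [if_pos h, h]; simp
    · rw [h, pow_zero]; exact Real.abs_cos_le_one _
  · obtain ⟨u, h1, h2⟩ := hnth_u θ m
    refine ⟨u, ?_, ?_⟩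
    · rw [if_neg (by omega), h, h1, pow_one]
    · rw [h, pow_one]; exact h2

theorem hnth_bd (e b : ℕ) (he : e ≤ 4) (hb : b ≤ 4) (m y : ℝ) (hm : 3 ≤ m)
    (hy : 8 / 3 * m ^ 2 ≤ y) :
    m ^ e * ((y + 3) ^ b * Real.exp (-y)) ≤
      3 ^ e * 27 ^ b * Real.exp (-24) * Real.exp (-(12 * (m - 3))) := by
  have hy24 : 16 * (m - 3) ≤ y - 24 := by nlinarith
  have hy0 : 0 ≤ y - 24 := by nlinarith
  have h1 : y + 3 ≤ 27 * Real.exp ((y - 24) / 27) := by
    have := Real.add_one_le_exp ((y - 24) / 27)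
    linarith
  have h2 : m ≤ 3 * Real.exp ((m - 3) / 3) := by
    have := Real.add_one_le_exp ((m - 3) / 3)
    linarith
  have h3 : (y + 3) ^ b ≤ 27 ^ b * Real.exp (4 * ((y - 24) / 27)) := by
    calc (y + 3) ^ b ≤ (27 * Real.exp ((y - 24) / 27)) ^ b :=
          pow_le_pow_left₀ (by linarith) h1 b
      _ = 27 ^ b * Real.exp (b * ((y - 24) / 27)) := by rw [mul_pow, ← Real.exp_nat_mul]
      _ ≤ 27 ^ b * Real.exp (4 * ((y - 24) / 27)) := by
          have hb' : (b : ℝ) ≤ 4 := by exact_mod_cast hb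
          have : (b : ℝ) * ((y - 24) / 27) ≤ 4 * ((y - 24) / 27) :=
            mul_le_mul_of_nonneg_right hb' (by positivity)
          gcongr
  have h4 : m ^ e ≤ 3 ^ e * Real.exp (4 * ((m - 3) / 3)) := by
    calc m ^ e ≤ (3 * Real.exp ((m - 3) / 3)) ^ e := pow_le_pow_left₀ (by linarith) h2 e
      _ = 3 ^ e * Real.exp (e * ((m - 3) / 3)) := by rw [mul_pow, ← Real.exp_nat_mul]
      _ ≤ 3 ^ e * Real.exp (4 * ((m - 3) / 3)) := by
          have he' : (e : ℝ) ≤ 4 := by exact_mod_cast he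
          have : (e : ℝ) * ((m - 3) / 3) ≤ 4 * ((m - 3) / 3) :=
            mul_le_mul_of_nonneg_right he' (by linarith)
          gcongr
  calc m ^ e * ((y + 3) ^ b * Real.exp (-y))
      ≤ (3 ^ e * Real.exp (4 * ((m - 3) / 3))) *
        ((27 ^ b * Real.exp (4 * ((y - 24) / 27))) * Real.exp (-y)) := by
          apply mul_le_mul h4 _ _ (by positivity)
          · exact mul_le_mul_of_nonneg_right h3 (Real.exp_nonneg _)
          · have : 0 ≤ y + 3 := by linarith
            positivity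
    _ = 3 ^ e * 27 ^ b * (Real.exp (4 * ((m - 3) / 3)) * Real.exp (4 * ((y - 24) / 27)) *
          Real.exp (-y)) := by ring
    _ = 3 ^ e * 27 ^ b * Real.exp (4 * ((m - 3) / 3) + 4 * ((y - 24) / 27) + -y) := by
          rw [Real.exp_add, Real.exp_add]
    _ ≤ 3 ^ e * 27 ^ b * Real.exp (-24 + -(12 * (m - 3))) := by
          have : 4 * ((m - 3) / 3) + 4 * ((y - 24) / 27) + -y ≤ -24 + -(12 * (m - 3)) := by
            linarith
          gcongr
    _ = 3 ^ e * 27 ^ b * Real.exp (-24) * Real.exp (-(12 * (m - 3))) := by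
          rw [Real.exp_add]; ring

theorem hnth_num : 2 * (Real.exp (-24) * (1 - Real.exp (-12))⁻¹) ≤ 84 / 1099511627776 := by
  have h1 : (2.718 : ℝ) ^ 24 ≤ Real.exp 24 := by
    have h := Real.exp_one_gt_d9
    have e : Real.exp 24 = Real.exp 1 ^ 24 := by
      rw [← Real.exp_nat_mul]; norm_num
    rw [e]
    exact pow_le_pow_left₀ (by norm_num) (by linarith) 24
  have h2 : Real.exp (-12) ≤ 1 / 1000 := by
    have h := Real.exp_one_gt_d9
    have e : Real.exp 12 = Real.exp 1 ^ 12 := by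
      rw [← Real.exp_nat_mul]; norm_num
    have h3 : (2 : ℝ) ^ 12 ≤ Real.exp 12 := by
      rw [e]
      exact pow_le_pow_left₀ (by norm_num) (by linarith) 12
    rw [Real.exp_neg]
    rw [inv_le_comm₀ (Real.exp_pos _) (by norm_num)]
    refine le_trans ?_ h3
    norm_num
  have h3 : Real.exp (-24) ≤ ((2.718 : ℝ) ^ 24)⁻¹ := by
    rw [Real.exp_neg]
    exact inv_anti₀ (by positivity) h1
  have h4 : (1 - Real.exp (-12))⁻¹ ≤ 1000 / 999 := by
    have h5 : (999 / 1000 : ℝ) ≤ 1 - Real.exp (-12) := by linarith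
    have := inv_anti₀ (by norm_num) h5
    refine this.trans ?_
    norm_num
  have h5 : (0 : ℝ) ≤ (1 - Real.exp (-12))⁻¹ := inv_nonneg.2 (by linarith)
  calc 2 * (Real.exp (-24) * (1 - Real.exp (-12))⁻¹)
      ≤ 2 * (((2.718 : ℝ) ^ 24)⁻¹ * (1000 / 999)) := by
        have := mul_le_mul h3 h4 h5 (by positivity)
        linarith
    _ ≤ 84 / 1099511627776 := by norm_num

theorem st_HNTH : ST_HNTH := by
  intro k κ hk L θ hL hL2 a b hab
  have hkκ : (k : ℝ) * κ = 4 := by exact_mod_cast hk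
  have hk0 : (k : ℝ) ≠ 0 := by
    rintro h
    rw [h, zero_mul] at hkκ
    norm_num at hkκ
  have hκ1 : (1 : ℝ) ≤ κ := by
    have : 1 ≤ κ := by
      rcases Nat.eq_zero_or_pos κ with h | h
      · rw [h, mul_zero] at hk; omega
      · exact h
    exact_mod_cast this
  set w : ℝ := Real.pi ^ 2 / (2 * L) with hw
  have hw1 : 8 / 3 ≤ w := by
    rw [hw, le_div_iff₀ (by positivity)]
    have := Real.pi_gt_d4
    nlinarith
  have hyy : ∀ m : ℝ, 2 * Real.pi ^ 2 * m ^ 2 / (k * L) = κ * m ^ 2 * w := by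
    intro m
    rw [hw]
    have : (κ : ℝ) = 4 / k := by field_simp; linarith
    rw [this]
    field_simp
    ring
  -- the terms
  set f : ℤ → ℝ := fun m => (m : ℝ) ^ a * Real.cos (m * θ + a * (Real.pi / 2)) *
    PL a b (2 * Real.pi ^ 2 * (m : ℝ) ^ 2 / (k * L)) *
    Real.exp (-(2 * Real.pi ^ 2 * (m : ℝ) ^ 2 / (k * L))) with hf
  have ha4 : a ≤ 4 := by omega
  have hb4 : b ≤ 4 := by omega
  have hfn : ∀ m : ℕ, f (m : ℤ) = (m : ℝ) ^ a *
      (hs a * (if a % 2 = 0 then Real.cos (m * θ) else Real.sin (m * θ))) *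
      PL a b (κ * (m : ℝ) ^ 2 * w) * Real.exp (-(κ * (m : ℝ) ^ 2 * w)) := by
    intro m
    simp only [hf, Int.cast_natCast]
    rw [hyy, hnth_cos a ha4]
  have heven : ∀ m : ℤ, f (-m) = f m := by
    intro m
    simp only [hf, Int.cast_neg, neg_sq]
    congr 2
    rw [hnth_cos a ha4, hnth_cos a ha4]
    interval_cases a <;> norm_num [hs]
    ring
  choose v hv1 hv2 using hnth_v a θ
  set q : ℕ → ℝ := fun n => ((n + 3 : ℕ) : ℝ) ^ a * (hs a * v (n + 3)) *
      PL a b (κ * ((n + 3 : ℕ) : ℝ) ^ 2 * w) * Real.exp (-(κ * ((n + 3 : ℕ) : ℝ) ^ 2 * w)) with hq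
  have hfq : ∀ n : ℕ, f ((n + 3 : ℕ) : ℤ) = Real.sin θ ^ (a % 2) * q n := by
    intro n
    rw [hfn, hv1, hq]
    ring
  set C : ℝ := 3 ^ (a + a % 2) * 27 ^ b * Real.exp (-24) with hCd
  have hhs : |hs a| = 1 := by
    unfold hs
    split_ifs <;> simp
  have hqb : ∀ n : ℕ, |q n| ≤ C * Real.exp (-12) ^ n := by
    intro n
    have hm3 : (3 : ℝ) ≤ ((n + 3 : ℕ) : ℝ) := by push_cast; linarith [(Nat.cast_nonneg n : (0:ℝ) ≤ n)]
    set m : ℝ := ((n + 3 : ℕ) : ℝ) with hm
    have hy : 8 / 3 * m ^ 2 ≤ κ * m ^ 2 * w := by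
      have h1 : m ^ 2 ≤ κ * m ^ 2 := by nlinarith [sq_nonneg m]
      have h2 : 0 ≤ m ^ 2 := sq_nonneg m
      nlinarith
    have hy0 : 0 ≤ κ * m ^ 2 * w := le_trans (by positivity) hy
    have hPL := hnth_PL a b hab _ hy0
    have he : a + a % 2 ≤ 4 := by omega
    have hbd := hnth_bd (a + a % 2) b he hb4 m _ hm3 hy
    have hm0 : 0 ≤ m := by linarith
    calc |q n| = m ^ a * |v (n + 3)| * |PL a b (κ * m ^ 2 * w)| *
          Real.exp (-(κ * m ^ 2 * w)) := by
          rw [hq]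
          simp only [abs_mul, hhs, one_mul, Real.abs_exp]
          rw [← hm, abs_of_nonneg (pow_nonneg hm0 a)]
      _ ≤ m ^ a * m ^ (a % 2) * (κ * m ^ 2 * w + 3) ^ b * Real.exp (-(κ * m ^ 2 * w)) := by
          have := hv2 (n + 3)
          gcongr
      _ = m ^ (a + a % 2) * ((κ * m ^ 2 * w + 3) ^ b * Real.exp (-(κ * m ^ 2 * w))) := by
          rw [pow_add]; ring
      _ ≤ C * Real.exp (-(12 * (m - 3))) := hbd
      _ = C * Real.exp (-12) ^ n := by
          rw [← Real.exp_nat_mul]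
          congr 2
          rw [hm]
          push_cast
          ring
  have hr1 : Real.exp (-12) < 1 := by
    rw [Real.exp_lt_one_iff] 
    norm_num
  have hgs : HasSum (fun n : ℕ => C * Real.exp (-12) ^ n) (C * (1 - Real.exp (-12))⁻¹) :=
    (hasSum_geometric_of_lt_one (Real.exp_nonneg _) hr1).mul_left C
  have hqs : Summable q := Summable.of_norm_bounded hgs.summable hqb
  have hg3 : Summable (fun n : ℕ => f ((n + 3 : ℕ) : ℤ)) := by
    simp only [hfq]
    exact hqs.mul_left _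
  have hg : Summable (fun n : ℕ => f (n : ℤ)) := (summable_nat_add_iff 3).1 hg3
  have hg1 : Summable (fun n : ℕ => f ((n + 1 : ℕ) : ℤ)) := (summable_nat_add_iff 1).2 hg
  have hneg : ∀ n : ℕ, f (-((n : ℤ) + 1)) = f ((n + 1 : ℕ) : ℤ) := by
    intro n
    rw [heven]
    push_cast
    rfl
  have hsum : ∑' m : ℤ, f m = f 0 + 2 * f 1 + 2 * f 2 + 2 * (Real.sin θ ^ (a % 2) * ∑' n, q n) := by
    rw [tsum_of_nat_of_neg_add_one hg (by simpa only [hneg] using hg1)]
    simp only [hneg]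
    have e1 := hg.sum_add_tsum_nat_add 3
    have e2 := hg1.sum_add_tsum_nat_add 2
    rw [← e1, ← e2]
    simp only [Finset.sum_range_succ, Finset.sum_range_zero]
    have e3 : ∑' n : ℕ, f ((n + 3 : ℕ) : ℤ) = Real.sin θ ^ (a % 2) * ∑' n, q n := by
      simp only [hfq]
      rw [tsum_mul_left]
    rw [e3]
    push_cast
    norm_num
    ring
  refine ⟨2 * ∑' n, q n, ?_, ?_⟩
  · have h1 : ‖∑' n, q n‖ ≤ C * (1 - Real.exp (-12))⁻¹ :=
      tsum_of_norm_bounded hgs (fun n => by rw [Real.norm_eq_abs]; exact hqb n)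
    rw [Real.norm_eq_abs] at h1
    rw [abs_mul, abs_of_pos (by norm_num : (0 : ℝ) < 2)]
    have h2 := hnth_num
    unfold hTl
    calc 2 * |∑' n, q n| ≤ 2 * (C * (1 - Real.exp (-12))⁻¹) := by linarith
      _ = (3 ^ (a + a % 2) * 27 ^ b) * (2 * (Real.exp (-24) * (1 - Real.exp (-12))⁻¹)) := by
          rw [hCd]; ring
      _ ≤ (3 ^ (a + a % 2) * 27 ^ b) * (84 / 1099511627776) := by gcongr
      _ = 84 * 3 ^ (a + a % 2) * 27 ^ b / 1099511627776 := by ring
  · have h0 : f 0 = if a = 0 ∧ b = 0 then 1 else 0 := by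
      have := hfn 0
      rw [Nat.cast_zero] at this
      rw [this]
      interval_cases a
      · interval_cases b <;> norm_num [PL, hs]
      all_goals norm_num
    have h1 : f 1 = Real.sin θ ^ (a % 2) *
        (hs a * hB a 1 (Real.cos θ) * PL a b (κ * w) * Real.exp (-(κ * w))) := by
      have := hfn 1
      rw [Nat.cast_one] at this
      rw [this]
      unfold hB hC hU
      push_cast
      simp only [one_pow, one_mul, mul_one]
      rcases Nat.mod_two_eq_zero_or_one a with h | h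
      · rw [if_pos h, if_pos h, h]; ring
      · rw [if_neg (by omega), if_neg (by omega), h]; ring
    have h2 : f 2 = Real.sin θ ^ (a % 2) *
        (2 ^ a * hs a * hB a 2 (Real.cos θ) * PL a b (4 * κ * w) * Real.exp (-(4 * κ * w))) := by
      have := hfn 2
      have e2 : ((2 : ℕ) : ℤ) = 2 := rfl
      rw [e2] at this
      rw [this]
      have e3 : (κ : ℝ) * ((2 : ℕ) : ℝ) ^ 2 * w = 4 * κ * w := by push_cast; ring
      rw [e3]
      unfold hB hC hU
      push_cast
      rcases Nat.mod_two_eq_zero_or_one a with h | h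
      · rw [if_pos h, if_pos h, h, Real.cos_two_mul]; ring
      · rw [if_neg (by omega), if_neg (by omega), h, Real.sin_two_mul]; ring
    have hth : thH k a b L θ = ∑' m : ℤ, f m := rfl
    rw [hth, hsum, h0, h1, h2]
    unfold hM
    by_cases hab0 : a = 0 ∧ b = 0
    · rw [if_pos hab0]
      obtain ⟨rfl, rfl⟩ := hab0
      simp only [Nat.zero_mod, pow_zero]
      ring
    · rw [if_neg hab0]
      ring

end RicP
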